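import Mathlib
import Pool.Agent.K1H84.DI.Desc
import Pool.Agent.K1H82.LQ.Main

/-!
# Descent on the closed subsets of `E ^ m` over quadratic fields: all local conditions on `E` and `K`

Let `M ≥ 1`, let `a₀`, `b₀` be residue classes modulo `M` and `V` an open cone in the plane. At least
`X² / (log X) ^ C` of the pairs `(a, b)` of integers, `|a|, |b| ≤ X`, `(a, b) ∈ V`, `a ≡ a₀`, `b ≡ b₀` modulo
`M`, have the following property for the elliptic curve `E : y² = x (x - a) (x - b)`. For every nonzero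
integer `d` there are `D₀` and an infinite set `S` of primes, with `|D₀| q ≤ (log X) ^ C` for one `q ∈ S`,
such that for all the fields `K = ℚ(√(D₀ n))`, `n` a product of an odd number of different elements of
`S`, the completions of `K` and of `ℚ(√d)` at the real place and at the primes dividing `M` are the
same, and, for all `m` and all the closed subsets `X` over `K` of `E ^ m` (for example all the curves `X`
over `K` in `E ^ m`):

(1) if an adelic point `(P_v)` of `X` lifts for every `j` to a `2 ^ j`-covering (so in particular if it is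
orthogonal to the Brauer group of `X`), then there is one `K`-rational point `y` of `E ^ m` with
`P_v ∈ y + 2 ^ j E(K_v) ^ m` for all the places `v` and all `j`, and if `v` is above two and `K_v = ℚ_2`, then
`P_v` and `y` differ by a point of odd order;

(2) if two splits in `K` and `E` has no points of odd order over `ℚ_2`, for example if `a` is odd and
`4 ∣ a + b`, then `y` is a rational point of `X` and `P_v = y` for all `v` above two, and if `X(K)` is empty
then there is `j` such that the `2 ^ j`-Selmer set of `X` is empty.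

So the behaviour of `E` and of `K` at finitely many places can be prescribed at the same time, and (if
`4 ∣ M`, and `a₀`, `b₀`, `d` satisfy the conditions in (2)) descent decides the existence of `K`-rational
points on all the closed subsets of the powers of `E`. Nothing is assumed on `Ш`. The definitions are in
`Pool/Agent/K1H84/DI/Desc.lean`. The proof combines the curves and quadratic fields of
`PrescribedCompletions` (MP_78d38b_nt, helper82) with the descent of `Pool/Agent/K1H97/BM` (helper97)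
and project R425 of the library.
-/

set_option autoImplicit false

namespace Pool.Agent.Results.MP_ab3ecb_nt.EveryLocalCondition

open Pool.Agent.K1H84.DI (OverSqrt NoOddOrder)

/-- `D` and `d` are in the same class in the multiplicative groups of `ℝ` and of `ℚ_p`, for all the
primes `p` dividing `M`, modulo squares; so the completions of `ℚ(√D)` and `ℚ(√d)` at these places
are isomorphic -/
def SameAt (M : ℕ) (D d : ℤ) : Prop :=
  0 < D * d ∧ ∀ (p : ℕ) [Fact p.Prime], p ∣ M → IsSquare ((D * d : ℤ) : ℚ_[p])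

/-- `S` is an infinite set of primes, and for all the products `n` of an odd number of different
elements of `S` the integer `D₀ n` is in the local class of `d` and satisfies `P`. -/
def Odds (M : ℕ) (P : ℤ → Prop) (D₀ d : ℤ) (S : Set ℕ) : Prop :=
  S.Infinite ∧ (∀ s ∈ S, s.Prime) ∧ ∀ T : Finset ℕ, (T : Set ℕ) ⊆ S → Odd T.card →
    SameAt M (D₀ * (∏ s ∈ T, s : ℕ)) d ∧ P (D₀ * (∏ s ∈ T, s : ℕ))

/-- For every nonzero `d` there are an integer `D₀` and a prime `q` with `|D₀| q ≤ B` such that `q` is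
an element of such a set `S`. -/
def SmallInEveryClass (M : ℕ) (B : ℝ) (P : ℤ → Prop) : Prop :=
  ∀ d : ℤ, d ≠ 0 → ∃ (D₀ : ℤ) (q : ℕ) (S : Set ℕ), (|D₀| : ℤ) * (q : ℝ) ≤ B ∧ q ∈ S ∧
    Odds M P D₀ d S

/-- `short a b = (A, B)`, where `y² = x³ + A x + B` is the short Weierstrass equation of
`y² = x (x - a) (x - b)` (replace `x` by `(x + 3 (a + b)) / 9` and `y` by `y / 27`) -/
def short (a b : ℤ) : ℤ × ℤ :=
  (-27 * (a ^ 2 - a * b + b ^ 2), 27 * ((a + b) * (2 * a - b) * (2 * b - a)))

/-- The pairs `(a, b)` of integers with `|a|, |b| ≤ X` and with the local conditions `a ≡ a₀`,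
`b ≡ b₀` modulo `M` and `(a, b) ∈ V` such that `E : y² = x (x - a) (x - b)` is an elliptic curve and (1),
(2) above hold for the closed subsets of the powers of `E` over small quadratic fields with any
completions at the real place and at the primes dividing `M`. -/
def Good (C M : ℕ) (a₀ b₀ : ℤ) (V : Set (ℝ × ℝ)) (X : ℕ) : Set (ℤ × ℤ) :=
  {t | |t.1| ≤ X ∧ |t.2| ≤ X ∧ t.1 ≡ a₀ [ZMOD M] ∧ t.2 ≡ b₀ [ZMOD M] ∧
    ((t.1 : ℝ), (t.2 : ℝ)) ∈ V ∧ t.1 ≠ 0 ∧ t.2 ≠ 0 ∧ t.1 ≠ t.2 ∧
    SmallInEveryClass M ((Real.log X) ^ C) (fun D => OverSqrt D (short t.1 t.2))}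

lemma small_of {M : ℕ} {B : ℝ} {P : ℤ → Prop} (h : Pool.Agent.K1H82.LQ.Ws M B P) :
    SmallInEveryClass M B P := h

lemma no_odd {a b : ℤ} (ha : a % 2 = 1) (hb : 4 ∣ a + b) : NoOddOrder (short a b) := by
  obtain ⟨k, hk⟩ := hb
  have hb' : b = 4 * k - a := by linarith
  obtain ⟨l, hl⟩ : ∃ l, a = 2 * l + 1 := ⟨a / 2, by omega⟩
  refine fun P m hm h => Pool.Agent.K1H97.BM.no_odd ?_ ?_ P m hm h
  · have e : (short a b).1 = 4 * (-27 * (3 * l ^ 2 + 3 * l - 3 * k * (2 * l + 1) + 4 * k ^ 2) - 21) + 3 := by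
      unfold short
      rw [hb', hl]
      ring
    rw [e]
    omega
  · have e : (short a b).2 = 4 * (27 * (k * (2 * a - b) * (2 * b - a))) := by
      unfold short
      rw [hk]
      ring
    rw [e]
    omega

/-- **Theorem.** There is a constant `C` such that for every `M ≥ 1`, all residue classes `a₀`, `b₀`
modulo `M` and every nonempty open cone `V` in the plane, for all large `X` at least
`X² / (log X) ^ C` pairs `(a, b)` of integers with `|a|, |b| ≤ X`, `a ≡ a₀`, `b ≡ b₀` modulo `M` and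
`(a, b) ∈ V` have the following property: for `E : y² = x (x - a) (x - b)` and for each nonzero integer
`d` there are `D₀`, an infinite set `S` of primes and `q ∈ S` with `|D₀| q ≤ (log X) ^ C` such that for all
the fields `K = ℚ(√(D₀ n))`, `n` a product of an odd number of different elements of `S`, the
completions of `K` and of `ℚ(√d)` at the real place and at the primes dividing `M` are the same, and all
the closed subsets over `K` of the powers of `E` have the properties (1) and (2) above (`OverSqrt`). The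
condition on `E` in (2) is satisfied if `a` is odd and `4 ∣ a + b`. -/
theorem result : (∀ a b : ℤ, a % 2 = 1 → 4 ∣ a + b → NoOddOrder (short a b)) ∧ ∃ C : ℕ,
    ∀ M : ℕ, 0 < M → ∀ (a₀ b₀ : ℤ) (V : Set (ℝ × ℝ)), IsOpen V → V.Nonempty →
      (∀ v ∈ V, ∀ u : ℝ, 0 < u → u • v ∈ V) → ∃ X₀ : ℕ, ∀ X : ℕ, X₀ ≤ X →
        (X : ℝ) ^ 2 / (Real.log X) ^ C ≤ ((Good C M a₀ b₀ V X).ncard : ℝ) := by
  classical
  refine ⟨fun a b => no_odd, Pool.Agent.K1H97.WA.CC, fun M hM a₀ b₀ V hV hne hcone => ?_⟩
  obtain ⟨⟨α, β⟩, hv⟩ := hne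
  obtain ⟨δ, hδ, hball⟩ := Metric.isOpen_iff.1 hV _ hv
  obtain ⟨X₀, hX₀⟩ := Pool.Agent.K1H82.LQ.main_pairs M hM a₀ b₀ α β δ hδ
  refine ⟨X₀, fun X hX => (hX₀ X hX).trans ?_⟩
  have hfin : (Good Pool.Agent.K1H97.WA.CC M a₀ b₀ V X).Finite := by
    refine ((Set.finite_Icc (-(X : ℤ)) X).prod (Set.finite_Icc (-(X : ℤ)) X)).subset ?_
    intro t ht
    exact ⟨abs_le.1 ht.1, abs_le.1 ht.2.1⟩
  have hsub : (((Pool.Agent.Y676.Bx X).filter (fun t => Pool.Agent.K1H97.WA.LC M a₀ b₀ α β δ t ∧
      Pool.Agent.K1H82.LQ.Pr M X t) : Finset (ℤ × ℤ)) : Set (ℤ × ℤ)) ⊆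
        Good Pool.Agent.K1H97.WA.CC M a₀ b₀ V X := by
    intro t ht
    rw [Finset.mem_coe, Finset.mem_filter, Pool.Agent.Y676.mem_Bx] at ht
    obtain ⟨⟨⟨h1, h2⟩, h3, h4, h5⟩, h6, h7, h8⟩ := ht
    obtain ⟨u, hu, hu1, hu2⟩ := h6.re
    have hover : ∀ D : ℤ, D ≠ 0 → Pool.Agent.K1H82.LQ.PK t.1 t.2 D → OverSqrt D (short t.1 t.2) := by
      intro D hD0 hD
      have t1 := Pool.Agent.K1H82.LQ.tr_short h7
      have t2 := Pool.Agent.K1H82.LQ.tr_short hD.tw
      rw [← (Pool.Agent.K1H82.LQ.c_tw D t.1 t.2).1, ← (Pool.Agent.K1H82.LQ.c_tw D t.1 t.2).2] at t2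
      exact Pool.Agent.K1H84.DI.over_of (c := short t.1 t.2)
        (Pool.Agent.K1H82.LQ.c_disc h3 h4 h5) (Pool.Agent.K1H82.LQ.c_root t.1 t.2) hD0 t1 t2
    refine ⟨abs_le.2 h1, abs_le.2 h2, h6.ca, h6.cb, ?_, h3, h4, h5, small_of (h8.mono hover)⟩
    have hin : (u⁻¹ * (t.1 : ℝ), u⁻¹ * (t.2 : ℝ)) ∈ V := by
      have hw : ∀ z γ : ℝ, |z - u * γ| < u * δ → |u⁻¹ * z - γ| < δ := by
        intro z γ hz
        have e : u⁻¹ * z - γ = u⁻¹ * (z - u * γ) := by
          rw [mul_sub, inv_mul_cancel_left₀ hu.ne']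
        rw [e, abs_mul, abs_of_pos (inv_pos.2 hu)]
        calc u⁻¹ * |z - u * γ| < u⁻¹ * (u * δ) := mul_lt_mul_of_pos_left hz (inv_pos.2 hu)
          _ = δ := inv_mul_cancel_left₀ hu.ne' _
      apply hball
      rw [Metric.mem_ball, Prod.dist_eq, max_lt_iff, Real.dist_eq, Real.dist_eq]
      exact ⟨hw _ _ hu1, hw _ _ hu2⟩
    have := hcone _ hin u hu
    rw [Prod.smul_mk, smul_eq_mul, smul_eq_mul, mul_inv_cancel_left₀ hu.ne',
      mul_inv_cancel_left₀ hu.ne'] at this
    exact this
  have h := Set.ncard_le_ncard hsub hfin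
  rw [Set.ncard_coe_finset] at h
  exact_mod_cast h

end Pool.Agent.Results.MP_ab3ecb_nt.EveryLocalCondition
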