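import Mathlib
import Pool.Agent.K1H84.DI.Crit
import Pool.Agent.K1H84.DI.Desc
import Pool.Agent.K1H6.LC.Fin
import Pool.Agent.Y667.RP.Disc
import Pool.Agent.W672.FK.Lowf
import Pool.Agent.W307.RT.Tors
import Pool.Agent.W513.FK.Parf
import Pool.Agent.Y679.Cr.Conv
import Pool.Agent.Y679.Cr.Dens

/-!
# Descent on the closed subsets of products of different elliptic curves, in every residue class

Order the elliptic curves over `ℚ` with full rational 2-torsion by the naive height, by the minimal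
discriminant or by the conductor. We find one set `𝒮` of these curves with the following properties.

For all `n` and all `E_1, …, E_n` in `𝒮`, and for all closed subsets `X` over `ℚ` of
`A = E_1 × … × E_n` (for instance for all the curves `X` of genus at least two in `A`):

(1) if an adelic point `(P_v)` of `X` lifts for every `j` to a `2 ^ j`-covering (so in particular if it is
orthogonal to the Brauer group of `X`), then there is one rational point `y` of `A` with
`P_v ∈ y + 2 ^ j A(ℚ_v)` for all the places `v` and all `j`, and `P_2` and `y` differ by a point of odd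
order;

(2) if the `E_i` have no points of odd order over `ℚ_2` (for example if they are `y² = x³ + A x + B` with
`A = 3`, `B = 0` modulo `4`), then `y` is a rational point of `X` and `P_2 = y`, and if `X(ℚ)` is empty
then there is `j` such that the `2 ^ j`-Selmer set of `X` is empty.

The set `𝒮` is large in every residue class: for every odd `M` and all `α`, `β` such that `α β (α - β)` is
prime to `M` it contains a positive proportion of all the curves with full rational 2-torsion, which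
are of the form `y² = (x - e₁) (x - e₂) (x - e₃)` with `e₂ - e₁ = α`, `e₃ - e₁ = β` modulo `M`; the lower
bound for the proportion does not depend on the ordering. So the `n` curves in (1), (2) may have any
prescribed good reductions with full 2-torsion at any finite number of odd primes, independently
of each other. Nothing is assumed on `Ш`.

The definitions of descent are in `Pool/Agent/K1H84/DI/Desc.lean`; the proof combines the positive
proportions with prescribed classes of `PrescribedReductions` (MP_6073f3_nt, helper6) with the descent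
of `Pool/Agent/K1H97/BM` (helper97) and project R425 of the library.
-/

set_option autoImplicit false

namespace Pool.Agent.Results.MP_ab3ecb_nt.ProductsInEveryClass

open Finset Filter Topology

open Pool.Agent.K1H84.DI (E Explained FullyExplained NoOddOrder)

/-- the absolute value of the minimal discriminant of an elliptic curve `W` over `ℚ`: the smallest
absolute value of the discriminant of a Weierstrass equation `V` with integer coefficients which is
isomorphic to `W` over `ℚ` -/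
noncomputable def minDisc (W : WeierstrassCurve ℚ) : ℕ :=
  sInf {n : ℕ | ∃ (V : WeierstrassCurve ℤ) (C : WeierstrassCurve.VariableChange ℚ),
    C • W = V.map (Int.castRingHom ℚ) ∧ n = V.Δ.natAbs}

/-- The prime-to-6 part of the conductor of `y² = x³ + A x + B` (there is no prime `p` with `p⁴ ∣ A`
and `p⁶ ∣ B`): the product over the primes `p ≥ 5` dividing `4 A³ + 27 B²` of `p` (multiplicative
reduction: `p ∤ A`) or `p²` (additive reduction: `p ∣ A`) -/
def Cond6 (c : ℤ × ℤ) : ℕ :=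
  ∏ p ∈ (Int.natAbs (4 * c.1 ^ 3 + 27 * c.2 ^ 2)).primeFactors.filter (fun p => 5 ≤ p),
    if (p : ℤ) ∣ c.1 then p ^ 2 else p

/-- the admissible factors: functions with values between `1` and `2 ^ 8 * 3 ^ 5`, for instance the
part of the conductor composed of the primes 2 and 3, or `f = 1` -/
def Factor (f : ℤ × ℤ → ℕ) : Prop := ∀ c, 1 ≤ f c ∧ f c ≤ 2 ^ 8 * 3 ^ 5

/-- the naive height of `y² = x³ + A x + B` is at most `Z` -/
def HeightLe (c : ℤ × ℤ) (Z : ℕ) : Prop := 4 * |c.1| ^ 3 ≤ Z ∧ 27 * c.2 ^ 2 ≤ Z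

/-- the minimal discriminant of `y² = x³ + A x + B` is at most `Z` in absolute value -/
def DiscLe (c : ℤ × ℤ) (Z : ℕ) : Prop := minDisc (E ℚ c) ≤ Z

/-- the prime-to-6 part of the conductor of `y² = x³ + A x + B` times the factor `f` is at most `Z`
(for a suitable factor `f`: the conductor is at most `Z`) -/
def CondLe (f : ℤ × ℤ → ℕ) (c : ℤ × ℤ) (Z : ℕ) : Prop := f c * Cond6 c ≤ Z

/-- the orderings: by the naive height, by the minimal discriminant, by the conductor (up to an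
arbitrary bounded factor) -/
def Ordering3 (I : ℤ × ℤ → ℕ → Prop) : Prop :=
  I = HeightLe ∨ I = DiscLe ∨ ∃ f : ℤ × ℤ → ℕ, Factor f ∧ I = CondLe f

/-- The pairs `(A, B)` of integers such that `4 A³ + 27 B² ≠ 0`, there is no prime `p` with
`p⁴ ∣ A` and `p⁶ ∣ B`, `Z/2 x Z/2` embeds in the group of the rational points of
`y² = x³ + A x + B`, and the size is at most `Z`. Every elliptic curve over `ℚ` with full rational
2-torsion is isomorphic to `E ℚ (A, B)` for exactly one pair with the first three properties. -/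
def Fam (I : ℤ × ℤ → ℕ → Prop) (Z : ℕ) : Set (ℤ × ℤ) :=
  {c : ℤ × ℤ | 4 * c.1 ^ 3 + 27 * c.2 ^ 2 ≠ 0 ∧
    (∀ p : ℕ, p.Prime → ¬ ((p : ℤ) ^ 4 ∣ c.1 ∧ (p : ℤ) ^ 6 ∣ c.2)) ∧
    (∃ f : ZMod 2 × ZMod 2 →+ (E ℚ c).toAffine.Point, Function.Injective f) ∧ I c Z}

/-- the proportion of the curves of `S` among the curves of size at most `Z` -/
noncomputable def proportion (I : ℤ × ℤ → ℕ → Prop) (S : Set (ℤ × ℤ)) (Z : ℕ) : ℝ :=
  ((Fam I Z ∩ S).ncard : ℝ) / (Fam I Z).ncard

/-- The residue class: `x³ + A x + B = (x - e₁) (x - e₂) (x - e₃)` with integers `e₁`, `e₂`, `e₃`,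
`e₂ - e₁ ≡ α` and `e₃ - e₁ ≡ β` modulo `M`. If `α`, `β`, `α - β` are prime to the odd number `M`,
then `E` has good reduction at the primes `p` of `M`, and its reduction is the curve
`y² = x (x - α) (x - β)` over `𝔽_p`. -/
def Class (M : ℕ) (α β : ℤ) : Set (ℤ × ℤ) :=
  {c | ∃ e₁ e₂ e₃ : ℤ, (∀ x : ℤ, x ^ 3 + c.1 * x + c.2 = (x - e₁) * (x - e₂) * (x - e₃)) ∧
    (M : ℤ) ∣ e₂ - e₁ - α ∧ (M : ℤ) ∣ e₃ - e₁ - β}

lemma FamH_eq (H : ℕ) : Fam HeightLe H = (Pool.Agent.W307.RT.Cv 2 H : Set (ℤ × ℤ)) := by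
  classical
  ext c
  have h : Pool.Agent.W307.RT.HasT 2 (Pool.Agent.W307.RT.Sh c.1 c.2) ↔
    ∃ f : ZMod 2 × ZMod 2 →+ (E ℚ c).toAffine.Point, Function.Injective f :=
    Pool.Agent.W307.RT.tors_iff
  unfold Fam HeightLe Pool.Agent.W307.RT.Cv
  rw [Set.mem_ofPred_eq, mem_coe, mem_filter, h, mem_product, mem_Icc, mem_Icc]
  constructor
  · rintro ⟨h1, h2, h3, h4, h5⟩
    refine ⟨⟨?_, ?_⟩, h1, h4, h5, h2, h3⟩
    · rw [← abs_le]
      have h0 := abs_nonneg c.1
      rcases eq_or_lt_of_le h0 with h6 | h6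
      · rw [← h6]; positivity
      · have : 1 ≤ |c.1| := h6
        nlinarith [mul_nonneg h0 h0, mul_self_nonneg (|c.1| - 1)]
    · rw [← abs_le]
      have h0 := abs_nonneg c.2
      rw [← sq_abs] at h5
      rcases eq_or_lt_of_le h0 with h6 | h6
      · rw [← h6]; positivity
      · have : 1 ≤ |c.2| := h6
        nlinarith
  · rintro ⟨-, h1, h4, h5, h2, h3⟩
    exact ⟨h1, h2, h3, h4, h5⟩

lemma FamD_eq (D : ℕ) : Fam DiscLe D = (Pool.Agent.TH344.DS.Dv D : Set (ℤ × ℤ)) := by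
  classical
  have h0 : Fam DiscLe D = Pool.Agent.W307.RS.DvS 2 D := by
    ext c
    have h : Pool.Agent.W307.RT.HasT 2 (Pool.Agent.W307.RT.Sh c.1 c.2) ↔
        ∃ f : ZMod 2 × ZMod 2 →+ (E ℚ c).toAffine.Point, Function.Injective f :=
      Pool.Agent.W307.RT.tors_iff
    unfold Fam Pool.Agent.W307.RS.DvS
    rw [Set.mem_ofPred_eq, Set.mem_ofPred_eq, h]
    exact Iff.rfl
  rw [h0]
  unfold Pool.Agent.TH344.DS.Dv
  rw [dif_pos (Pool.Agent.TH344.DS.excd.1 D), Set.Finite.coe_toFinset]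

/-- The number of these curves tends to infinity (ordering by height). -/
lemma tendstoH : Tendsto (fun Z : ℕ => (Fam HeightLe Z).ncard) atTop atTop := by
  simp only [FamH_eq, Set.ncard_coe_finset]
  exact Pool.Agent.W307.RT.tendsto_of_low Pool.Agent.W672.FK.lowf

/-- The number of these curves tends to infinity (ordering by the minimal discriminant). -/
lemma tendstoD : Tendsto (fun Z : ℕ => (Fam DiscLe Z).ncard) atTop atTop := by
  have h1 := Pool.Agent.W307.RT.tendsto_of_low Pool.Agent.W672.FK.lowf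
  have h2 : Tendsto (fun D : ℕ => (Pool.Agent.W307.RT.Cv 2 (D / 32)).card) atTop atTop :=
    h1.comp (Nat.tendsto_div_const_atTop (by norm_num))
  obtain ⟨hD1, hD2, hD3⟩ := Pool.Agent.TH344.DS.excd
  refine tendsto_atTop_mono (fun D => ?_) h2
  have h3 : (Pool.Agent.TH344.DS.Dv D : Set (ℤ × ℤ)) = Pool.Agent.W307.RS.DvS 2 D := by
    unfold Pool.Agent.TH344.DS.Dv
    rw [dif_pos (hD1 D), Set.Finite.coe_toFinset]
  rw [FamD_eq, h3, ← Set.ncard_coe_finset]
  exact Set.ncard_le_ncard (Pool.Agent.W307.RS.Cv_sub Pool.Agent.W554.RS.mdl 2 (D / 32) D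
    (Nat.mul_div_le D 32)) (hD1 D)

/-- the property without the size -/
def Pr (c : ℤ × ℤ) : Prop := 4 * c.1 ^ 3 + 27 * c.2 ^ 2 ≠ 0 ∧
    (∀ p : ℕ, p.Prime → ¬ ((p : ℤ) ^ 4 ∣ c.1 ∧ (p : ℤ) ^ 6 ∣ c.2)) ∧
    (∃ g : ZMod 2 × ZMod 2 →+ (E ℚ c).toAffine.Point, Function.Injective g)

lemma good : Pool.Agent.Y679.Cr.Good Pr := by
  classical
  refine ⟨fun c hc => ⟨?_, ?_⟩, fun H c hc => ?_, Pool.Agent.W672.FK.lowf⟩
  · exact Pool.Agent.Y679.Cr.isMin_of hc.1 hc.2.1
  · exact Pool.Agent.Y679.Cr.full_of (Pool.Agent.W307.RT.tors_iff.2 hc.2.2)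
  · unfold Pool.Agent.W307.RT.Cv at hc
    obtain ⟨-, h1, -, -, h2, h3⟩ := mem_filter.1 hc
    exact ⟨h1, h2, Pool.Agent.W307.RT.tors_iff.1 h3⟩

lemma cond_eq (c : ℤ × ℤ) : Pool.Agent.Y679.Cr.cs c = Cond6 c := by
  unfold Pool.Agent.Y679.Cr.cs Pool.Agent.H925R.Szpiro.condS Cond6
  rw [Pool.Agent.Y679.Cr.D_neg, Int.natAbs_neg]
  refine prod_congr rfl fun p _ => ?_
  by_cases h : (p : ℤ) ∣ c.1
  · rw [if_pos h, if_pos (Int.dvd_neg.2 h)]
  · rw [if_neg h, if_neg fun h' => h (Int.dvd_neg.1 h')]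

lemma bdd {f : ℤ × ℤ → ℕ} (hf : Factor f) : Pool.Agent.Y679.Cr.Bdd f :=
  fun c => ⟨(hf c).1, (hf c).2.trans (by norm_num)⟩

lemma FamC_eq (f : ℤ × ℤ → ℕ) (Z : ℕ) : Fam (CondLe f) Z = Pool.Agent.Y679.Cr.Gm Pr f Z := by
  ext c
  unfold Fam CondLe Pool.Agent.Y679.Cr.Gm
  rw [Set.mem_ofPred_eq, Set.mem_ofPred_eq, cond_eq]
  exact ⟨fun h => ⟨⟨h.1, h.2.1, h.2.2.1⟩, h.2.2.2⟩, fun h => ⟨h.1.1, h.1.2.1, h.1.2.2, h.2⟩⟩

/-- from the height to the three orderings -/
lemma three_orderings (T : ℤ × ℤ → Prop) (S : Set (ℤ × ℤ)) (hTS : ∀ c, Pr c → T c → c ∈ S)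
    (h : open Classical in ∃ c : ℝ, 0 < c ∧ ∃ H0 : ℕ, ∀ H : ℕ, H0 ≤ H →
      c * ((Pool.Agent.W307.RT.Cv 2 H).card : ℝ) ≤
        (((Pool.Agent.W307.RT.Cv 2 H).filter T).card : ℝ)) :
    ∃ δ : ℝ, 0 < δ ∧ ∀ I, Ordering3 I → ∀ᶠ Z : ℕ in atTop, δ ≤ proportion I S Z := by
  classical
  have h0 : ∃ c : ℝ, 0 < c ∧ ∃ H0 : ℕ, ∀ H : ℕ, H0 ≤ H →
      c * ((Pool.Agent.W307.RT.Cv 2 H).card : ℝ) ≤
        (((Pool.Agent.W307.RT.Cv 2 H).filter T).card : ℝ) := by
    obtain ⟨c, hc, H0, h⟩ := h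
    refine ⟨c, hc, H0, fun H hH => (h H hH).trans (Nat.cast_le.2 (card_le_card fun k hk => ?_))⟩
    rw [mem_filter] at hk ⊢
    exact hk
  obtain ⟨c1, hc1, H1, h1⟩ := h0
  obtain ⟨c2, hc2, H2, h2⟩ := Pool.Agent.Y667.RP.disc_of_height T ⟨c1, hc1, H1, h1⟩
  obtain ⟨c3, hc3, h3⟩ := Pool.Agent.Y679.Cr.pos good (T := T) (by
    refine ⟨c1, hc1, H1, fun H hH => ⟨_, fun k hk => ?_, h1 H hH⟩⟩
    exact mem_filter.1 (mem_coe.1 hk))
  refine ⟨min c1 (min c2 c3), lt_min hc1 (lt_min hc2 hc3), fun I hI => ?_⟩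
  rcases hI with rfl | rfl | ⟨f, hf, rfl⟩
  · filter_upwards [eventually_ge_atTop H1, tendstoH.eventually_ge_atTop 1] with H hH hH1
    refine (min_le_left _ _).trans ?_
    unfold proportion
    rw [le_div_iff₀ (by exact_mod_cast hH1)]
    have e1 : (Fam HeightLe H).ncard = (Pool.Agent.W307.RT.Cv 2 H).card := by
      rw [FamH_eq, Set.ncard_coe_finset]
    rw [e1]
    refine (h1 H hH).trans (Nat.cast_le.2 ?_)
    rw [← Set.ncard_coe_finset]
    refine Set.ncard_le_ncard (fun k hk => ?_) (Set.Finite.inter_of_left (by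
      rw [FamH_eq]
      exact finite_toSet _) _)
    rw [mem_coe, mem_filter] at hk
    have hk1 : k ∈ Fam HeightLe H := by
      rw [FamH_eq, mem_coe]
      exact hk.1
    exact ⟨hk1, hTS k ⟨hk1.1, hk1.2.1, hk1.2.2.1⟩ hk.2⟩
  · filter_upwards [eventually_ge_atTop H2, tendstoD.eventually_ge_atTop 1] with H hH hH1
    refine ((min_le_right _ _).trans (min_le_left _ _)).trans ?_
    unfold proportion
    rw [le_div_iff₀ (by exact_mod_cast hH1)]
    have e1 : (Fam DiscLe H).ncard = (Pool.Agent.TH344.DS.Dv H).card := by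
      rw [FamD_eq, Set.ncard_coe_finset]
    rw [e1]
    refine (h2 H hH).trans (Nat.cast_le.2 ?_)
    rw [← Set.ncard_coe_finset]
    refine Set.ncard_le_ncard (fun k hk => ?_) (Set.Finite.inter_of_left (by
      rw [FamD_eq]
      exact finite_toSet _) _)
    rw [mem_coe, mem_filter] at hk
    have hk1 : k ∈ Fam DiscLe H := by
      rw [FamD_eq, mem_coe]
      exact hk.1
    exact ⟨hk1, hTS k ⟨hk1.1, hk1.2.1, hk1.2.2.1⟩ hk.2⟩
  · filter_upwards [h3 f (bdd hf)] with Z hZ
    refine ((min_le_right _ _).trans (min_le_right _ _)).trans (hZ.trans ?_)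
    unfold proportion
    rw [FamC_eq]
    refine div_le_div_of_nonneg_right (Nat.cast_le.2 (Set.ncard_le_ncard ?_
      ((Pool.Agent.Y679.Cr.Gm_fin good (bdd hf) Z).subset Set.inter_subset_left)))
      (Nat.cast_nonneg _)
    rintro k ⟨h4, h5⟩
    exact ⟨h4, hTS k h4.1 h5⟩

/-- the good curves -/
def Set4 : Set (ℤ × ℤ) := {c | 4 * c.1 ^ 3 + 27 * c.2 ^ 2 ≠ 0 ∧
  (∃ e : ℤ, e ^ 3 + c.1 * e + c.2 = 0) ∧ Pool.Agent.Y723.QT.Tr c.1 c.2}

lemma sqrt_one : Pool.Agent.K1H84.DI.IsSqrtField 1 ℚ :=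
  ⟨1, by norm_num, IntermediateField.bot_eq_top_iff_finrank_eq_one.2 (Module.finrank_self ℚ) ▸
    IntermediateField.adjoin_one⟩

lemma settled {c : ℤ × ℤ} (hc : c ∈ Set4) :
    Finite (Pool.Agent.K1H97.BM.cv c.1 c.2 ℚ).toAffine.Point ∧
    Pool.Agent.K1H97.BM.Kill (Pool.Agent.K1H97.BM.cv c.1 c.2 ℚ) 1 := by
  obtain ⟨hD, ⟨e, he⟩, h0⟩ := hc
  obtain ⟨h1, -, h3⟩ := Pool.Agent.K1H82.LQ.settled_of hD he
    (Pool.Agent.Y723.QT.triv2 hD he one_ne_zero h0 (by
      rw [one_pow, one_mul, one_pow, one_mul]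
      exact h0) ℚ sqrt_one)
  refine ⟨h1, fun k x hx => ?_⟩
  rw [pow_one]
  exact h3 k x hx

lemma desc {n : ℕ} {c : Fin n → ℤ × ℤ} (hc : ∀ i, c i ∈ Set4) :
    Explained (fun i => E ℚ (c i)) ∧
      ((∀ i, NoOddOrder (c i)) → FullyExplained (fun i => E ℚ (c i))) := by
  refine ⟨Pool.Agent.K1H84.DI.explained_of (fun i => (c i).1) (fun i => (c i).2)
    (fun i => (hc i).1) (fun i => (settled (hc i)).1) (fun i => (settled (hc i)).2), fun hodd => ?_⟩
  refine Pool.Agent.K1H84.DI.fully_of (fun i => (c i).1) (fun i => (c i).2)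
    (fun i => (hc i).1) (fun i => (settled (hc i)).1) (fun i => (settled (hc i)).2)
    (fun v hv => ?_) hodd
  obtain ⟨r, hr1, hr2⟩ := sqrt_one
  exact Pool.Agent.K1H97.BM.split_sq v (fun _ : Fin 1 => r) (fun _ => 1) (fun _ => hr1)
    (fun _ => ⟨1, by norm_num⟩) (by rw [Set.range_const]; exact hr2) hv

/-- **Theorem.** There is a set `𝒮` of pairs `(A, B)` such that for all `n` and all the families
`E_1, …, E_n` of curves `y² = x³ + A x + B`, `(A, B) ∈ 𝒮`, (1) and (2) above hold for all the closed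
subsets over `ℚ` of `E_1 × … × E_n`, and with the following property. Order the elliptic curves over `ℚ`
with full rational 2-torsion by the naive height, by the minimal discriminant or by the conductor
(`Ordering3`): there are finitely many curves of size at most `Z`, and their number tends to infinity;
for every odd `M` and all `α`, `β` such that `α β (α - β)` is prime to `M` a positive proportion (lower
density at least `δ > 0`, where `δ` does not depend on the ordering) of all these curves is in the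
residue class of `α`, `β` modulo `M` and in `𝒮`. The local condition in (2) is satisfied if `A = 3` and
`B = 0` modulo `4`. -/
theorem result : (∀ c : ℤ × ℤ, c.1 % 4 = 3 → c.2 % 4 = 0 → NoOddOrder c) ∧
    (∀ I, Ordering3 I → (∀ Z : ℕ, (Fam I Z).Finite) ∧
      Tendsto (fun Z : ℕ => (Fam I Z).ncard) atTop atTop) ∧
    ∃ 𝒮 : Set (ℤ × ℤ),
      (∀ (n : ℕ) (c : Fin n → ℤ × ℤ), (∀ i, c i ∈ 𝒮) → Explained (fun i => E ℚ (c i)) ∧
        ((∀ i, NoOddOrder (c i)) → FullyExplained (fun i => E ℚ (c i)))) ∧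
      ∀ (M : ℕ) (α β : ℤ), Odd M → IsCoprime (α * β * (α - β)) (M : ℤ) →
        ∃ δ : ℝ, 0 < δ ∧ ∀ I, Ordering3 I → ∀ᶠ Z : ℕ in atTop,
          δ ≤ proportion I (Class M α β ∩ 𝒮) Z := by
  classical
  refine ⟨fun c h1 h2 P m hm h => Pool.Agent.K1H97.BM.no_odd h1 h2 P m hm h, ?_,
    Set4, fun n c hc => desc hc, fun M α β hM hαβ => ?_⟩
  · rintro I (rfl | rfl | ⟨f, hf, rfl⟩)
    · refine ⟨fun Z => ?_, tendstoH⟩
      rw [FamH_eq]
      exact finite_toSet _
    · refine ⟨fun Z => ?_, tendstoD⟩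
      rw [FamD_eq]
      exact finite_toSet _
    · constructor
      · intro Z
        rw [FamC_eq]
        exact Pool.Agent.Y679.Cr.Gm_fin good (bdd hf) Z
      · simp only [FamC_eq]
        exact Pool.Agent.Y679.Cr.Gm_tendsto good (bdd hf)
  · refine three_orderings (Pool.Agent.K1H6.LC.TL 0 M α β) (Class M α β ∩ Set4)
      (fun c hc h => ?_) ?_
    · obtain ⟨h1, h2, h3, -⟩ := h
      have hT' : Pool.Agent.W307.RT.HasT 2 (Pool.Agent.W307.RT.Sh c.1 c.2) :=
        Pool.Agent.W307.RT.tors_iff.2 hc.2.2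
      obtain ⟨F, -, hF⟩ := Pool.Agent.W513.FK.parf
      obtain ⟨-, -, -, -, -, e1, e2, e3, hroot, -, -⟩ := hF c hc.1 hT'
      refine ⟨h1, hc.1, ⟨e1, ?_⟩, ?_⟩
      · rw [hroot]
        ring
      · exact Pool.Agent.K1H82.LQ.trS_of ((Pool.Agent.K1H84.DI.small_iff hc.1 hroot).1
          ⟨h2, (h3.trans (by norm_num)).le⟩)
    · obtain ⟨c, hc, H0, h⟩ := Pool.Agent.K1H6.LC.curvesL hM hαβ (r := 0) (Or.inl rfl)
      exact ⟨c, hc, H0, h⟩

end Pool.Agent.Results.MP_ab3ecb_nt.ProductsInEveryClass
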