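import Mathlib
import Pool.Agent.K1H84.DI.Desc
import Pool.Agent.K1H82.LQ.Main
import Pool.Agent.K1H82.LQ.Pos
import Pool.Agent.Y676.Tsm
import Pool.Agent.Y660.TS.Rnk
import Pool.Agent.Y660.TS.Mom
import Pool.Agent.Y46.KEY.Key
import Pool.Agent.W307.RT.Tors
import Pool.Agent.W513.FK.Parf

/-!
# Descent on the closed subsets of `E ^ m` over quadratic fields with prescribed completions

A positive proportion of the elliptic curves `E` over `ℚ` with full rational 2-torsion, ordered by
height, has the following property; the proportion does not depend on `M`. Let `M ≥ 1`. The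
completions of a quadratic field at the real place and at the primes dividing `M` may be prescribed (by
an integer `d` such that they are those of `ℚ(√d)`). For each choice of these completions there are many
small quadratic fields `K` with these completions, `K = ℚ(√(D₀ q))` with `|D₀| ≤ 8 M²` and a positive
proportion of the primes `q` up to any bound `Q ≥ (log H) ^ C` (and in place of `q` any product of an odd
number of different elements of an infinite set of primes containing `q`), such that, for all `m` and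
all the closed subsets `X` over `K` of `E ^ m` (for example all the curves `X` in `E ^ m`):

(1) if an adelic point `(P_v)` of `X` lifts for every `j` to a `2 ^ j`-covering (so in particular if it is
orthogonal to the Brauer group of `X`), then there is one `K`-rational point `y` of `E ^ m` with
`P_v ∈ y + 2 ^ j E(K_v) ^ m` for all the places `v` and all `j`, and if `v` is above two and `K_v = ℚ_2`, then
`P_v` and `y` differ by a point of odd order;

(2) if two splits in `K` and `E` has no points of odd order over `ℚ_2` (for example if it is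
`y² = x³ + A x + B` with `A = 3`, `B = 0` modulo `4`), then `y` is a rational point of `X` and `P_v = y` for
all `v` above two, and if `X(K)` is empty then there is `j` such that the `2 ^ j`-Selmer set of `X` is
empty.

Nothing is assumed on `Ш`. The definitions are in `Pool/Agent/K1H84/DI/Desc.lean`. The proof combines the
quadratic fields with given completions of `PrescribedCompletions` (MP_78d38b_nt, helper82) with the
descent of `Pool/Agent/K1H97/BM` (helper97) and project R425 of the library.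
-/

set_option autoImplicit false

namespace Pool.Agent.Results.MP_ab3ecb_nt.SmallQuadraticFields

open Finset

open Pool.Agent.K1H84.DI (E OverSqrt NoOddOrder)

open Classical in
/-- The pairs `(A, B)` of integers such that `4 A³ + 27 B² ≠ 0`, there is no prime `p` with
`p⁴ ∣ A` and `p⁶ ∣ B`, the height `max (4 |A|³) (27 B²)` is at most `H`, and `Z/2 x Z/2` embeds in
the group of the rational points of `y² = x³ + A x + B`. (The bounds `|A|, |B| ≤ H` follow from the
bound of the height. Every elliptic curve over `ℚ` is isomorphic to `E ℚ (A, B)` for exactly one pair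
with the first two properties.) -/
noncomputable def Fam (H : ℕ) : Finset (ℤ × ℤ) :=
  ((Icc (-(H : ℤ)) H) ×ˢ (Icc (-(H : ℤ)) H)).filter (fun c : ℤ × ℤ =>
    4 * c.1 ^ 3 + 27 * c.2 ^ 2 ≠ 0 ∧ 4 * |c.1| ^ 3 ≤ H ∧ 27 * c.2 ^ 2 ≤ H ∧
    (∀ p : ℕ, p.Prime → ¬ ((p : ℤ) ^ 4 ∣ c.1 ∧ (p : ℤ) ^ 6 ∣ c.2)) ∧
    ∃ f : ZMod 2 × ZMod 2 →+ (E ℚ c).toAffine.Point, Function.Injective f)

/-- `D` and `d` are in the same class in the multiplicative groups of `ℝ` and of `ℚ_p`, for all the
primes `p` dividing `M`, modulo squares; so the completions of `ℚ(√D)` and `ℚ(√d)` at these places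
are isomorphic -/
def SameAt (M : ℕ) (D d : ℤ) : Prop :=
  0 < D * d ∧ ∀ (p : ℕ) [Fact p.Prime], p ∣ M → IsSquare ((D * d : ℤ) : ℚ_[p])

/-- `S` is an infinite set of primes, and for all the products `n` of an odd number of different
elements of `S` the integer `D₀ n` is in the local class of `d` and satisfies `P`. -/
def Odds (M : ℕ) (P : ℤ → Prop) (D₀ d : ℤ) (S : Set ℕ) : Prop :=
  S.Infinite ∧ (∀ s ∈ S, s.Prime) ∧ ∀ T : Finset ℕ, (T : Set ℕ) ⊆ S → Odd T.card →
    SameAt M (D₀ * (∏ s ∈ T, s : ℕ)) d ∧ P (D₀ * (∏ s ∈ T, s : ℕ))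

open Classical in
/-- For every nonzero `d` there is an integer `D₀` with `|D₀| ≤ 8 M²` such that at least
`κ Q / log Q` primes `q ≤ Q` are elements of such sets `S`. -/
def ManyInEveryClass (M Q : ℕ) (κ : ℝ) (P : ℤ → Prop) : Prop :=
  ∀ d : ℤ, d ≠ 0 → ∃ D₀ : ℤ, |D₀| ≤ 8 * (M : ℤ) ^ 2 ∧
    κ * Q / Real.log Q ≤ (((Icc 1 Q).filter (fun q => ∃ S : Set ℕ, q ∈ S ∧ Odds M P D₀ d S)).card : ℝ)

lemma Fam_eq (H : ℕ) : Fam H = Pool.Agent.W307.RT.Cv 2 H := by
  classical
  unfold Fam Pool.Agent.W307.RT.Cv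
  apply filter_congr
  intro c _
  have h : Pool.Agent.W307.RT.HasT 2 (Pool.Agent.W307.RT.Sh c.1 c.2) ↔
      ∃ f : ZMod 2 × ZMod 2 →+ (E ℚ c).toAffine.Point, Function.Injective f :=
    Pool.Agent.W307.RT.tors_iff
  rw [h]

/-- a curve of the family: the discriminant and a root -/
lemma mem_fam {H : ℕ} {c : ℤ × ℤ} (hc : c ∈ Pool.Agent.W307.RT.Cv 2 H) :
    4 * c.1 ^ 3 + 27 * c.2 ^ 2 ≠ 0 ∧ ∃ e : ℤ, e ^ 3 + c.1 * e + c.2 = 0 := by
  classical
  obtain ⟨Φ, -, hΦ⟩ := Pool.Agent.W513.FK.parf
  unfold Pool.Agent.W307.RT.Cv at hc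
  obtain ⟨_, a1, a2, _, _, a3⟩ := mem_filter.1 hc
  obtain ⟨-, -, -, -, -, e1, e2, e3, he, -, -⟩ := hΦ c a1 a3
  refine ⟨a1, e1, ?_⟩
  rw [he]
  ring

lemma many_of {M Q : ℕ} {κ : ℝ} {P : ℤ → Prop} (h : Pool.Agent.K1H82.LQ.Wq M Q κ P) :
    ManyInEveryClass M Q κ P := h

open Classical in
/-- **Theorem.** There are a constant `C` and `δ > 0` such that for every `M ≥ 1` there is `κ > 0` such
that for all large `H` and all `Q ≥ (log H) ^ C` at least `δ * #Fam H` of the elliptic curves `E` over `ℚ`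
with full rational 2-torsion and height at most `H` have the following property. For every nonzero
integer `d` there is an integer `D₀`, `|D₀| ≤ 8 M²`, such that at least `κ Q / log Q` primes `q ≤ Q` are
elements of infinite sets `S` of primes such that for all the products `n` of an odd number of
different elements of `S` the fields `K = ℚ(√(D₀ n))` and `ℚ(√d)` have the same completions at the real
place and at the primes dividing `M`, and all the closed subsets over `K` of the powers of `E` have the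
properties (1) and (2) above (`OverSqrt`). The local condition in (2) is satisfied if `E` is
`y² = x³ + A x + B` with `A = 3` and `B = 0` modulo `4`. -/
theorem result : (∀ c : ℤ × ℤ, c.1 % 4 = 3 → c.2 % 4 = 0 → NoOddOrder c) ∧
    ∃ (C : ℕ) (δ : ℝ), 0 < δ ∧ ∀ M : ℕ, 0 < M → ∃ κ : ℝ, 0 < κ ∧ ∃ H₀ : ℕ, ∀ H : ℕ, H₀ ≤ H →
      ∀ Q : ℕ, (Real.log H) ^ C ≤ Q →
      δ * ((Fam H).card : ℝ) ≤ (((Fam H).filter (fun c => ManyInEveryClass M Q κ (fun D =>
        OverSqrt D c))).card : ℝ) := by
  refine ⟨fun c h1 h2 P m hm h => Pool.Agent.K1H97.BM.no_odd h1 h2 P m hm h, ?_⟩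
  have hkey := Pool.Agent.Y46.KEY.key_of Pool.Agent.Y660.TS.rnk Pool.Agent.Y676.Tsm.tsm
  obtain ⟨δ, hδ, H₁, h₁⟩ := Pool.Agent.K1H82.LQ.pos_trivial
  refine ⟨Pool.Agent.K1H97.WA.CC, δ / 2, by positivity, fun M hM => ?_⟩
  obtain ⟨κ, hκ, H₂, h₂⟩ := Pool.Agent.K1H82.LQ.main_all hkey Pool.Agent.Y660.TS.mom M hM
    (δ / 2) (by positivity)
  refine ⟨κ, hκ, H₁ + H₂, fun H hH Q hQ => ?_⟩
  have g1 := h₁ H (by omega)
  have g2 := h₂ H (by omega) Q hQ
  rw [Fam_eq]
  have g3 : (((Pool.Agent.W307.RT.Cv 2 H).filter (fun t : ℤ × ℤ =>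
      Pool.Agent.Y723.QT.Tr t.1 t.2)).card : ℝ) ≤
      (((Pool.Agent.W307.RT.Cv 2 H).filter (fun c => ManyInEveryClass M Q κ (fun D =>
        OverSqrt D c))).card : ℝ) +
      (((Pool.Agent.W307.RT.Cv 2 H).filter (fun c => ¬ Pool.Agent.K1H82.LQ.Wq M Q κ (fun D =>
        Pool.Agent.K1H97.CU.Tv (Pool.Agent.W307.RT.Sh (D ^ 2 * c.1) (D ^ 3 * c.2))))).card : ℝ) := by
    rw [← Nat.cast_add]
    refine Nat.cast_le.2 ((card_le_card fun c hc => ?_).trans (card_union_le _ _))
    rw [mem_filter] at hc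
    rw [mem_union, mem_filter, mem_filter]
    by_cases h : Pool.Agent.K1H82.LQ.Wq M Q κ (fun D =>
        Pool.Agent.K1H97.CU.Tv (Pool.Agent.W307.RT.Sh (D ^ 2 * c.1) (D ^ 3 * c.2)))
    · left
      obtain ⟨hD, e, he⟩ := mem_fam hc.1
      refine ⟨hc.1, many_of (h.mono fun D hD0 hT => ?_)⟩
      exact Pool.Agent.K1H84.DI.over_of hD he hD0 hc.2 (Pool.Agent.K1H82.LQ.trS_of hT)
    · exact Or.inr ⟨hc.1, h⟩
  linarith

end Pool.Agent.Results.MP_ab3ecb_nt.SmallQuadraticFields
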