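import Mathlib
import Pool.Agent.K1H97.BM.Ade
import Pool.Agent.K1H97.BM.Odd
import Pool.Agent.K1H97.BM.Main
import Pool.Agent.Y676.Tsm
import Pool.Agent.Y660.TS.Rnk
import Pool.Agent.Y660.TS.Mom
import Pool.Agent.Y46.KEY.Key
import Pool.Agent.W307.RT.Tors

/-!
# Descent on the closed subsets of products of twists, for twists of positive natural density

Let `E_1, …, E_k` be elliptic curves over `ℚ` with full rational 2-torsion. For almost all `k`-tuples,
ordered by height, and a positive proportion of the primes `q` up to any bound `Q ≥ (log H) ^ C` there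
is an integer `M` prime to `q` such that, among the squarefree numbers `D` with all prime factors
`≡ 1` modulo `M` and different from `q`, ordered by size, exactly the proportion `0.4194...` belongs
to a set `𝒟` with the following property. For `D ∈ 𝒟` there is an infinite set `R` of primes `≡ 1`
modulo `M` such that for all the number fields `K` generated by square roots of products of elements
of `R` (for example `K = ℚ`), for all the twists of the `E_i` by `d = q D r_1 … r_s`, `r_j ∈ R`, and for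
all the closed subsets `X` over `K` of the products of `n` of these `k` twisted curves, `n` arbitrary
(for instance for all the curves `X` of genus at least two over `K` in these products):

(1) if an adelic point `(P_v)` of `X` lifts for every `j` to a `2 ^ j`-covering (so in particular if it
is orthogonal to the Brauer group of `X`), then there is one `K`-rational point `y` of the product
with `P_v ∈ y + 2 ^ j A(K_v)` for all the places `v` and all `j`, and for the places `v` above two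
`P_v` and `y` differ by a point of odd order;

(2) if the `E_i` have no points of odd order over `ℚ_2` (for example if they are `y² = x³ + A x + B`
with `A = 3`, `B = 0` modulo `4`), then `y` is a rational point of `X` and `P_v = y` for all `v` above
two, and if `X(K)` is empty then there is `j` such that the `2 ^ j`-Selmer set of `X` is empty.

The proof. For the `D` for which the reduced Laplacian of the nonresidues of the prime factors of `D`
and `q` is nonsingular modulo two (their density is computed in `Pool/Agent/K1H97/NA`) the primes in `R`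
are chosen `≡ 1` modulo `M` and `D`, nonresidues of `q` and residues of each other; then the Laplacians of
all the `q D r_1 … r_s` are nonsingular, and all these twists have no points of infinite order and no
elements of order two in `Ш`. So over `K` they have finitely many points and the 2-primary parts of
`Ш` have finite exponent; and the descent follows the project R425 of the library (which treats
curves with trivial 2-Selmer group).
-/

set_option autoImplicit false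

open IsDedekindDomain NumberField WeierstrassCurve MvPolynomial Pool.Agent.TH954

open scoped Classical

namespace Pool.Agent.Results.MP_ab3ecb_nt.TwistsOfNaturalDensity

section descent

variable {K : Type} [Field K] {n : ℕ}

/-- The `L`-rational points of the closed subset `X` of `E_1 × … × E_n` defined by the equations in
`S` in the homogeneous coordinates of the `n` points. -/
def LocalPoints (E : Fin n → WeierstrassCurve K) (S : Set (MvPolynomial (Fin n × Fin 3) K))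
    (L : Type) [Field L] [Algebra K L] : Set ((i : Fin n) → ((E i).baseChange L).toAffine.Point) :=
  {P | OnX S (fun i => crd (P i))}

/-- The `K`-rational points of `X`. -/
def RationalPoints (E : Fin n → WeierstrassCurve K) (S : Set (MvPolynomial (Fin n × Fin 3) K)) :
    Set ((i : Fin n) → (E i).toAffine.Point) :=
  {y | ∀ f ∈ S, eval (fun p => crd (y p.1) p.2) f = 0}

/-- The `L`-rational point `P` of `E_1 × … × E_n` lifts to an `L`-rational point of the `N`-covering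
given by the cocycles `ξ i`: there are points `Q i` over the algebraic closure with `N • Q i = P i`
on which the Galois group of `L` acts by translation by the `ξ i`. -/
def Lifts (E : Fin n → WeierstrassCurve K) (N : ℕ)
    (ξ : (i : Fin n) → (AlgebraicClosure K ≃ₐ[K] AlgebraicClosure K) → AlgPt (E i) K)
    (L : Type) [Field L] [Algebra K L] (P : (i : Fin n) → ((E i).baseChange L).toAffine.Point) :
    Prop :=
  ∃ (ι : AlgebraicClosure K →ₐ[K] AlgebraicClosure L) (Q : (i : Fin n) → AlgPt (E i) L),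
    (∀ i, N • Q i = incl (E i) L (P i)) ∧
      ∀ i σ τ, Compat ι σ τ → pm (E i) ι (ξ i τ) = act (E i) σ (Q i) - Q i

/-- `ξ` defines an `N`-covering of `E_1 × … × E_n` -/
def IsCovering (E : Fin n → WeierstrassCurve K) (N : ℕ)
    (ξ : (i : Fin n) → (AlgebraicClosure K ≃ₐ[K] AlgebraicClosure K) → AlgPt (E i) K) : Prop :=
  (∀ i, IsCocycle (E i) (ξ i)) ∧ ∀ i σ, N • ξ i σ = 0

/-- The `N`-Selmer set of `X`: the `N`-coverings of `E_1 × … × E_n` over `K` whose pull-backs to `X`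
have points over all the completions of `K`. -/
def SelmerSet [NumberField K] (E : Fin n → WeierstrassCurve K)
    (S : Set (MvPolynomial (Fin n × Fin 3) K)) (N : ℕ) :
    Set ((i : Fin n) → (AlgebraicClosure K ≃ₐ[K] AlgebraicClosure K) → AlgPt (E i) K) :=
  {ξ | IsCovering E N ξ ∧
    (∀ v : HeightOneSpectrum (𝓞 K), ∃ P ∈ LocalPoints E S (v.adicCompletion K),
      Lifts E N ξ (v.adicCompletion K) P) ∧
    ∀ w : InfinitePlace K, ∃ P ∈ LocalPoints E S w.Completion, Lifts E N ξ w.Completion P}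

/-- the adelic points of `X` -/
structure AdelicPoint [NumberField K] (E : Fin n → WeierstrassCurve K)
    (S : Set (MvPolynomial (Fin n × Fin 3) K)) where
  /-- the components at the finite places -/
  fin : (v : HeightOneSpectrum (𝓞 K)) → (i : Fin n) →
    ((E i).baseChange (v.adicCompletion K)).toAffine.Point
  /-- the components at the infinite places -/
  inf : (w : InfinitePlace K) → (i : Fin n) → ((E i).baseChange w.Completion).toAffine.Point
  fin_mem : ∀ v, fin v ∈ LocalPoints E S (v.adicCompletion K)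
  inf_mem : ∀ w, inf w ∈ LocalPoints E S w.Completion

/-- For every `j` the adelic point `P` lifts to an adelic point of a `2 ^ j`-covering. -/
def Survives [NumberField K] {E : Fin n → WeierstrassCurve K}
    {S : Set (MvPolynomial (Fin n × Fin 3) K)} (P : AdelicPoint E S) : Prop :=
  ∀ j : ℕ, ∃ ξ, IsCovering E (2 ^ j) ξ ∧
    (∀ v : HeightOneSpectrum (𝓞 K), Lifts E (2 ^ j) ξ (v.adicCompletion K) (P.fin v)) ∧
    ∀ w : InfinitePlace K, Lifts E (2 ^ j) ξ w.Completion (P.inf w)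

/-- `Y` is the point `y` over `L` -/
def Same (E : Fin n → WeierstrassCurve K) (L : Type) [Field L] [Algebra K L]
    (y : (i : Fin n) → (E i).toAffine.Point)
    (Y : (i : Fin n) → ((E i).baseChange L).toAffine.Point) : Prop :=
  ∀ i j, crd (Y i) j = algebraMap K L (crd (y i) j)

/-- `P ∈ y + 2 ^ j A(L)` for all `j` -/
def Close (E : Fin n → WeierstrassCurve K) (L : Type) [Field L] [Algebra K L]
    (y : (i : Fin n) → (E i).toAffine.Point)
    (P : (i : Fin n) → ((E i).baseChange L).toAffine.Point) : Prop :=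
  ∃ Y, Same E L y Y ∧ ∀ (j : ℕ) (i : Fin n), ∃ z, P i = Y i + 2 ^ j • z

/-- `P` and `y` differ by a point of odd order -/
def OddDifference (E : Fin n → WeierstrassCurve K) (L : Type) [Field L] [Algebra K L]
    (y : (i : Fin n) → (E i).toAffine.Point)
    (P : (i : Fin n) → ((E i).baseChange L).toAffine.Point) : Prop :=
  ∃ Y, Same E L y Y ∧ ∀ i, ∃ m : ℕ, Odd m ∧ m • P i = m • Y i

/-- (1) above, for all the closed subsets `X` of `E_1 × … × E_n` -/
def Explained [NumberField K] (E : Fin n → WeierstrassCurve K) : Prop :=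
  ∀ S : Set (MvPolynomial (Fin n × Fin 3) K), (∀ f ∈ S, ∃ d, MultiHom d f) →
    ∀ P : AdelicPoint E S, Survives P → ∃ y : (i : Fin n) → (E i).toAffine.Point,
      (∀ v, Close E (v.adicCompletion K) y (P.fin v)) ∧ (∀ w, Close E w.Completion y (P.inf w)) ∧
      ∀ v : HeightOneSpectrum (𝓞 K), ((2 : ℕ) : 𝓞 K) ∈ v.asIdeal →
        OddDifference E (v.adicCompletion K) y (P.fin v)

/-- (2) above, for all the closed subsets `X` of `E_1 × … × E_n` -/
def FullyExplained [NumberField K] (E : Fin n → WeierstrassCurve K) : Prop :=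
  ∀ S : Set (MvPolynomial (Fin n × Fin 3) K), (∀ f ∈ S, ∃ d, MultiHom d f) →
    (∀ P : AdelicPoint E S, Survives P → ∃ y ∈ RationalPoints E S,
      (∀ v, Close E (v.adicCompletion K) y (P.fin v)) ∧ (∀ w, Close E w.Completion y (P.inf w)) ∧
      ∀ v : HeightOneSpectrum (𝓞 K), ((2 : ℕ) : 𝓞 K) ∈ v.asIdeal →
        Same E (v.adicCompletion K) y (P.fin v)) ∧
    (RationalPoints E S = ∅ → ∃ j : ℕ, SelmerSet E S (2 ^ j) = ∅)

end descent

/-- the curve `y² = x³ + A x + B` over `L`, `c = (A, B)` -/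
def E (L : Type) [Field L] (c : ℤ × ℤ) : WeierstrassCurve L := ⟨0, 0, 0, (c.1 : L), (c.2 : L)⟩

/-- the quadratic twist by `d` of the curve `y² = x³ + A x + B`, `c = (A, B)` -/
def Tw (L : Type) [Field L] (d : ℤ) (c : ℤ × ℤ) : WeierstrassCurve L :=
  E L (d ^ 2 * c.1, d ^ 3 * c.2)

/-- The pairs `(A, B)` of integers such that `4 A³ + 27 B² ≠ 0`, there is no prime `p` with
`p⁴ ∣ A` and `p⁶ ∣ B`, the height `max (4 |A|³) (27 B²)` is at most `H`, and `Z/2 x Z/2` embeds in
the group of the rational points of `y² = x³ + A x + B`. (The bounds `|A|, |B| ≤ H` follow from the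
bound of the height. Every elliptic curve over `ℚ` is isomorphic to `E ℚ (A, B)` for exactly one pair
with the first two properties.) -/
noncomputable def Fam (H : ℕ) : Finset (ℤ × ℤ) :=
  ((Finset.Icc (-(H : ℤ)) H) ×ˢ (Finset.Icc (-(H : ℤ)) H)).filter (fun c : ℤ × ℤ =>
    4 * c.1 ^ 3 + 27 * c.2 ^ 2 ≠ 0 ∧ 4 * |c.1| ^ 3 ≤ H ∧ 27 * c.2 ^ 2 ≤ H ∧
    (∀ p : ℕ, p.Prime → ¬ ((p : ℤ) ^ 4 ∣ c.1 ∧ (p : ℤ) ^ 6 ∣ c.2)) ∧
    ∃ f : ZMod 2 × ZMod 2 →+ (E ℚ c).toAffine.Point, Function.Injective f)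

/-- the curve has no points of odd order over the field of the 2-adic numbers, except zero -/
def NoOddOrder (c : ℤ × ℤ) : Prop :=
  ∀ (P : (E ℚ_[2] c).toAffine.Point) (m : ℕ), Odd m → m • P = 0 → P = 0

/-- `K` is generated over `ℚ` by the square roots of `s` products of different elements of `R` -/
def SqrtField (R : Set ℕ) (s : ℕ) (K : Type) [Field K] [NumberField K] : Prop :=
  ∃ (T : Fin s → Finset ℕ) (x : Fin s → K),
    (∀ i, (T i : Set ℕ) ⊆ R ∧ x i ^ 2 = ((∏ r ∈ T i, r : ℕ) : K)) ∧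
    IntermediateField.adjoin ℚ (Set.range x) = ⊤

/-- (1) and (2) above for the products of twists of the curves `x 1, …, x k` -/
def Tower {k : ℕ} (x : Fin k → ℤ × ℤ) (q M D : ℕ) : Prop :=
  ∃ R : Set ℕ, R.Infinite ∧ (∀ r ∈ R, r.Prime ∧ r % M = 1) ∧
    ∀ U : Finset ℕ, (U : Set ℕ) ⊆ R →
    ∀ (s : ℕ) (K : Type) [Field K] [NumberField K], SqrtField R s K →
    ∀ (n : ℕ) (σ : Fin n → Fin k),
      Explained (fun j => Tw K (q * D * ∏ r ∈ U, r : ℕ) (x (σ j))) ∧
      ((∀ j, NoOddOrder (x (σ j))) →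
        FullyExplained (fun j => Tw K (q * D * ∏ r ∈ U, r : ℕ) (x (σ j))))

/-- the squarefree numbers `D` all of whose prime factors are `≡ 1` modulo `M` and different from
`q` -/
def Cls (M q D : ℕ) : Prop := Squarefree D ∧ ∀ p : ℕ, p.Prime → p ∣ D → p % M = 1 ∧ p ≠ q

/-- the number of the `D ≤ X` of the class with the property `P` -/
noncomputable def count (M q : ℕ) (P : ℕ → Prop) (X : ℕ) : ℕ :=
  ((Finset.Icc 1 X).filter fun D => Cls M q D ∧ P D).card

/-- the proportion `∏_{i ≥ 0} (1 - 2 ^ (-(2 i + 1))) = 0.4194...` -/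
noncomputable def α : ℝ := ∏' i : ℕ, (1 - (1 / 2 : ℝ) ^ (2 * i + 1))

/-- The prime `q` is good for the curves `x 1, …, x k`: there is a positive multiple `M` of `8`,
prime to `q`, and a set `𝒟` of numbers such that

* at least `a X (log X) ^ (1 / φ(M) - 1)` of the `D ≤ X` are in the class, for large `X`, `a > 0`;
* the proportion of the elements of `𝒟` among the `D ≤ X` of the class tends to `α`;
* all the elements of `𝒟` in the class have the property `Tower`. -/
def GoodPrime {k : ℕ} (x : Fin k → ℤ × ℤ) (q : ℕ) : Prop :=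
  q.Prime ∧ ∃ M : ℕ, 0 < M ∧ 8 ∣ M ∧ Nat.Coprime q M ∧ ∃ 𝒟 : Set ℕ,
    (∃ a : ℝ, 0 < a ∧ ∀ᶠ X : ℕ in Filter.atTop,
      a * X * (Real.log X) ^ (-1 + 1 / (M.totient : ℝ)) ≤ (count M q (fun _ => True) X : ℝ)) ∧
    Filter.Tendsto (fun X : ℕ => (count M q (fun D => D ∈ 𝒟) X : ℝ) /
      (count M q (fun _ => True) X : ℝ)) Filter.atTop (nhds α) ∧
    ∀ D ∈ 𝒟, Cls M q D → Tower x q M D

/-- the good primes `q ≤ Q` -/
noncomputable def GQ {k : ℕ} (Q : ℕ) (x : Fin k → ℤ × ℤ) : Finset ℕ :=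
  (Finset.Icc 1 Q).filter (GoodPrime x)

lemma Fam_eq (H : ℕ) : Fam H = Pool.Agent.W307.RT.Cv 2 H := by
  unfold Fam Pool.Agent.W307.RT.Cv
  apply Finset.filter_congr
  intro c _
  have h : Pool.Agent.W307.RT.HasT 2 (Pool.Agent.W307.RT.Sh c.1 c.2) ↔
      ∃ f : ZMod 2 × ZMod 2 →+ (E ℚ c).toAffine.Point, Function.Injective f :=
    Pool.Agent.W307.RT.tors_iff
  rw [h]

/-- a curve of the family: the discriminant and a root -/
lemma mem_fam {H : ℕ} {c : ℤ × ℤ} (hc : c ∈ Pool.Agent.W307.RT.Cv 2 H) :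
    4 * c.1 ^ 3 + 27 * c.2 ^ 2 ≠ 0 ∧ ∃ e : ℤ, e ^ 3 + c.1 * e + c.2 = 0 := by
  obtain ⟨Φ, -, hΦ⟩ := Pool.Agent.W513.FK.parf
  unfold Pool.Agent.W307.RT.Cv at hc
  obtain ⟨_, a1, a2, _, _, a3⟩ := Finset.mem_filter.1 hc
  obtain ⟨-, -, -, -, -, e1, e2, e3, he, -, -⟩ := hΦ c a1 a3
  refine ⟨a1, e1, ?_⟩
  rw [he]
  ring

lemma cls_iff {M q D : ℕ} (hM : 1 < M) : Cls M q D ↔
    Squarefree D ∧ Pool.Agent.K1H97.NA.Cl (Pool.Agent.K1H97.NA.PM M q) D.primeFactors := by
  unfold Cls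
  refine and_congr_right fun hD => ?_
  have hD0 : D ≠ 0 := hD.ne_zero
  constructor
  · intro h p hp
    have hp' := Nat.prime_of_mem_primeFactors hp
    obtain ⟨h1, h2⟩ := h p hp' (Nat.dvd_of_mem_primeFactors hp)
    refine ⟨hp', ?_, h2⟩
    show p % M = 1 % M
    rw [h1, Nat.mod_eq_of_lt hM]
  · intro h p hp hpD
    obtain ⟨-, h1, h2⟩ := h p ((Nat.mem_primeFactors_of_ne_zero hD0).2 ⟨hp, hpD⟩)
    have h3 : p % M = 1 % M := h1
    rw [h3, Nat.mod_eq_of_lt hM]
    exact ⟨rfl, h2⟩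

section

variable {K : Type} [Field K] [NumberField K] {n : ℕ}

lemma sel_of {E : Fin n → WeierstrassCurve K} {S : Set (MvPolynomial (Fin n × Fin 3) K)}
    {P : AdelicPoint E S} (hP : Survives P) (j : ℕ) :
    ∃ ξ ∈ Pool.Agent.R425.D.SelSet E S (2 ^ j),
      (∀ v : HeightOneSpectrum (𝓞 K),
        Pool.Agent.K1H97.BM.CovAt E (2 ^ j) ξ (v.adicCompletion K) (P.fin v)) ∧
      ∀ w : InfinitePlace K, Pool.Agent.K1H97.BM.CovAt E (2 ^ j) ξ w.Completion (P.inf w) := by
  obtain ⟨ξ, ⟨h1, h2⟩, h3, h4⟩ := hP j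
  refine ⟨ξ, ⟨h1, h2, fun v => ?_, fun w => ?_⟩, h3, h4⟩
  · obtain ⟨ι, Q, g1, g2⟩ := h3 v
    exact ⟨ι, P.fin v, Q, P.fin_mem v, g1, g2⟩
  · obtain ⟨ι, Q, g1, g2⟩ := h4 w
    exact ⟨ι, P.inf w, Q, P.inf_mem w, g1, g2⟩

lemma sel_iff (E : Fin n → WeierstrassCurve K) (S : Set (MvPolynomial (Fin n × Fin 3) K)) (N : ℕ) :
    SelmerSet E S N = Pool.Agent.R425.D.SelSet E S N := by
  ext ξ
  have key : ∀ (L : Type) [Field L] [Algebra K L],
      (∃ P ∈ LocalPoints E S L, Lifts E N ξ L P) ↔ Pool.Agent.R425.D.CovPt E S N ξ L := by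
    intro L _ _
    constructor
    · rintro ⟨P, hP, ι, Q, h1, h2⟩
      exact ⟨ι, P, Q, hP, h1, h2⟩
    · rintro ⟨ι, P, Q, hP, h1, h2⟩
      exact ⟨P, hP, ι, Q, h1, h2⟩
  constructor
  · rintro ⟨⟨h1, h2⟩, h3, h4⟩
    exact ⟨h1, h2, fun v => (key _).1 (h3 v), fun w => (key _).1 (h4 w)⟩
  · rintro ⟨h1, h2, h3, h4⟩
    exact ⟨⟨h1, h2⟩, fun v => (key _).2 (h3 v), fun w => (key _).2 (h4 w)⟩

lemma close_of {E : Fin n → WeierstrassCurve K} {L : Type} [Field L] [Algebra K L]
    {y : (i : Fin n) → (E i).toAffine.Point}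
    {P : (i : Fin n) → ((E i).baseChange L).toAffine.Point}
    (h : ∀ (k : ℕ) i, ∃ z, P i - locHom (L := L) (E i) (y i) = 2 ^ k • z) : Close E L y P := by
  refine ⟨fun i => locHom (L := L) (E i) (y i), fun i j => crd_loc (L := L) (E i) (y i) j,
    fun j i => ?_⟩
  obtain ⟨z, hz⟩ := h j i
  exact ⟨z, by rw [← hz]; abel⟩

variable (a b : Fin n → ℤ)

/-- the two parts, for curves with finitely many points and Ш[2^∞] of finite exponent -/
lemma parts (hD : ∀ i, 4 * a i ^ 3 + 27 * b i ^ 2 ≠ 0) {N : ℕ}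
    (hfin : ∀ i, Finite (Pool.Agent.K1H97.BM.cv (a i) (b i) K).toAffine.Point)
    (hsha : ∀ i, Pool.Agent.K1H97.BM.Kill (Pool.Agent.K1H97.BM.cv (a i) (b i) K) N)
    (hiso : ∀ v : HeightOneSpectrum (𝓞 K), ((2 : ℕ) : 𝓞 K) ∈ v.asIdeal →
      Nonempty (ℚ_[2] ≃+* v.adicCompletion K)) :
    Explained (fun i => Pool.Agent.K1H97.BM.cv (a i) (b i) K) ∧
    ((∀ i (T : (Pool.Agent.K1H97.BM.cv (a i) (b i) ℚ_[2]).toAffine.Point) (m : ℕ), Odd m →
      m • T = 0 → T = 0) → FullyExplained (fun i => Pool.Agent.K1H97.BM.cv (a i) (b i) K)) := by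
  refine ⟨fun S hS P hP => ?_, fun hodd S hS => ⟨fun P hP => ?_, fun hX => ?_⟩⟩
  · obtain ⟨y, h1, h2⟩ := Pool.Agent.K1H97.BM.adele _ hfin hsha S P.fin P.inf (sel_of hP)
    refine ⟨y, fun v => close_of (h1 v), fun w => close_of (h2 w), fun v hv => ?_⟩
    obtain ⟨e⟩ := hiso v hv
    refine ⟨fun i => locHom (L := v.adicCompletion K) _ (y i),
      fun i j => crd_loc (L := v.adicCompletion K) _ (y i) j, fun i => ?_⟩
    obtain ⟨m, hm, h3⟩ := Pool.Agent.K1H97.BM.odd_at (hD i) v e _ (fun k => h1 v k i)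
    refine ⟨m, hm, ?_⟩
    rw [smul_sub] at h3
    exact sub_eq_zero.1 h3
  · obtain ⟨y, h1, h2⟩ := Pool.Agent.K1H97.BM.adele _ hfin hsha S P.fin P.inf (sel_of hP)
    have hsame : ∀ v : HeightOneSpectrum (𝓞 K), ((2 : ℕ) : 𝓞 K) ∈ v.asIdeal →
        Same (fun i => Pool.Agent.K1H97.BM.cv (a i) (b i) K) (v.adicCompletion K) y (P.fin v) := by
      intro v hv i
      obtain ⟨e⟩ := hiso v hv
      obtain ⟨m, hm, h3⟩ := Pool.Agent.K1H97.BM.odd_at (hD i) v e _ (fun k => h1 v k i)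
      have h4 := Pool.Agent.K1H97.BM.no_odd_at (hodd i) v e _ hm h3
      intro j
      rw [sub_eq_zero.1 h4]
      exact crd_loc (L := v.adicCompletion K) _ (y i) j
    refine ⟨y, fun f hf => ?_, fun v => close_of (h1 v), fun w => close_of (h2 w), hsame⟩
    obtain ⟨v, hv⟩ := Pool.Agent.K1H97.BM.exists_two K
    have h5 := P.fin_mem v f hf
    rw [aeval_def] at h5
    have e2 : (fun p : Fin n × Fin 3 => crd (P.fin v p.1) p.2) =
        fun p => algebraMap K (v.adicCompletion K) (crd (y p.1) p.2) := by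
      funext p
      exact hsame v hv p.1 p.2
    rw [e2] at h5
    have h6 : eval₂ (algebraMap K (v.adicCompletion K))
        (fun p => algebraMap K (v.adicCompletion K) (crd (y p.1) p.2)) f =
        algebraMap K (v.adicCompletion K) (eval (fun p => crd (y p.1) p.2) f) :=
      (eval₂_comp_left (algebraMap K (v.adicCompletion K)) (RingHom.id K) _ f).symm
    rw [h6, map_eq_zero] at h5
    exact h5
  · obtain ⟨v, hv⟩ := Pool.Agent.K1H97.BM.exists_two K
    obtain ⟨e⟩ := hiso v hv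
    obtain ⟨k, hk⟩ := Pool.Agent.K1H97.BM.empt2 a b hD hfin hsha hodd S hS v e (fun y hy => by
      have : y ∈ (∅ : Set _) := by
        rw [← hX]
        exact hy
      exact this)
    exact ⟨k, by rw [sel_iff]; exact hk⟩

end

lemma isq {M : ℕ} (hM8 : 8 ∣ M) (U : Finset ℕ) (h : ∀ r ∈ U, r ≡ 1 [MOD M]) :
    (∏ r ∈ U, r) % 8 = 1 := by
  have h1 : ∏ r ∈ U, r ≡ 1 [MOD 8] := by
    have h2 : ∏ r ∈ U, r ≡ ∏ r ∈ U, 1 [MOD 8] := Nat.ModEq.prod fun r hr => (h r hr).of_dvd hM8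
    rwa [Finset.prod_const_one] at h2
  exact h1

lemma tower_of {k : ℕ} {x : Fin k → ℤ × ℤ} (hD0 : ∀ i, 4 * (x i).1 ^ 3 + 27 * (x i).2 ^ 2 ≠ 0)
    {e : Fin k → ℤ} (he : ∀ i, e i ^ 3 + (x i).1 * e i + (x i).2 = 0) {q M : ℕ} (hq : q.Prime)
    (hq8 : q % 8 = 1) (hM : 0 < M) (hM8 : 8 ∣ M) (hcop : Nat.Coprime q M)
    (h : ∀ (n : ℕ) (r : Fin n → ℕ), Function.Injective r →
      (∀ j, (r j).Prime ∧ r j ≡ 1 [MOD M] ∧ r j ≠ q) →
        ∀ i, Pool.Agent.K1H97.ST.St (x i) ((q * ∏ j, r j : ℕ) : ℤ)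
          (n - (Pool.Agent.K1H97.ST.Lap q r).rank))
    {D : ℕ} (hcl : Cls M q D) (hev : Pool.Agent.K1H97.NA.Ev q 0 D.primeFactors) :
    Tower x q M D := by
  have hM1 : 1 < M := by
    have := Nat.le_of_dvd hM hM8
    omega
  obtain ⟨hsq, hcl'⟩ := (cls_iff hM1).1 hcl
  obtain ⟨R, h1, h2, h3⟩ := Pool.Agent.K1H97.BM.tower hD0 he hq hq8 hM hM8 hcop h hsq hcl' hev
  refine ⟨R, h1, fun r hr => ⟨(h2 r hr).1, ?_⟩, fun U hU s K _ _ hK n σ => ?_⟩
  · have := (h2 r hr).2
    change r % M = 1 % M at this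
    rwa [Nat.mod_eq_of_lt hM1] at this
  obtain ⟨T, x', g1, g2⟩ := hK
  have hd : ((q * D : ℕ) : ℤ) ≠ 0 := by
    exact_mod_cast mul_ne_zero hq.ne_zero hsq.ne_zero
  have hU0 : Pool.Agent.K1H97.CU.pT U ≠ 0 := Pool.Agent.K1H97.CU.pT_ne fun r hr => (h2 r (hU hr)).1
  have hdd : ((q * D * ∏ r ∈ U, r : ℕ) : ℤ) = ((q * D : ℕ) : ℤ) * Pool.Agent.K1H97.CU.pT U := by
    unfold Pool.Agent.K1H97.CU.pT
    push_cast
    ring
  have hdd0 : ((q * D * ∏ r ∈ U, r : ℕ) : ℤ) ≠ 0 := by
    rw [hdd]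
    exact mul_ne_zero hd hU0
  have key : ∀ i, _ := fun i => Pool.Agent.K1H97.FC.field_full (h3 i)
    (Pool.Agent.Y723.QT.disc_q hd (hD0 i)) (Pool.Agent.Y723.QT.root_q (q := ((q * D : ℕ) : ℤ)) (he i))
    hU T (fun i => (g1 i).1) K (x := x') (fun i => by
      rw [(g1 i).2]
      unfold Pool.Agent.K1H97.CU.pT
      push_cast
      rfl) g2
  have e1 : ∀ i, (Pool.Agent.K1H97.CU.pT U) ^ 2 * (((q * D : ℕ) : ℤ) ^ 2 * (x i).1) =
      ((q * D * ∏ r ∈ U, r : ℕ) : ℤ) ^ 2 * (x i).1 := by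
    intro i
    rw [hdd]
    ring
  have e2 : ∀ i, (Pool.Agent.K1H97.CU.pT U) ^ 3 * (((q * D : ℕ) : ℤ) ^ 3 * (x i).2) =
      ((q * D * ∏ r ∈ U, r : ℕ) : ℤ) ^ 3 * (x i).2 := by
    intro i
    rw [hdd]
    ring
  have hsq8 : ∀ V : Finset ℕ, (V : Set ℕ) ⊆ R → IsSquare (((∏ r ∈ V, r : ℕ) : ℤ) : ℚ_[2]) :=
    fun V hV => Pool.Agent.K1H97.FU.sq_two (isq hM8 V fun r hr => (h2 r (hV hr)).2)
  have hiso : ∀ v : HeightOneSpectrum (𝓞 K), ((2 : ℕ) : 𝓞 K) ∈ v.asIdeal →
      Nonempty (ℚ_[2] ≃+* v.adicCompletion K) := fun v hv =>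
    Pool.Agent.K1H97.BM.split_sq v x' (fun i => ((∏ r ∈ T i, r : ℕ) : ℤ)) (fun i => by
      rw [(g1 i).2, Int.cast_natCast]) (fun i => hsq8 _ (g1 i).1) g2 hv
  have hp := parts (K := K)
    (fun j => ((q * D * ∏ r ∈ U, r : ℕ) : ℤ) ^ 2 * (x (σ j)).1)
    (fun j => ((q * D * ∏ r ∈ U, r : ℕ) : ℤ) ^ 3 * (x (σ j)).2)
    (fun j => Pool.Agent.Y723.QT.disc_q hdd0 (hD0 (σ j))) (N := s)
    (fun j => by
      rw [← e1, ← e2]
      exact (key (σ j)).1)
    (fun j => by
      rw [← e1, ← e2]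
      exact (key (σ j)).2.2) hiso
  refine ⟨hp.1, fun hodd => hp.2 fun j => ?_⟩
  have hD8 : D % 8 = 1 := by
    have h5 := isq hM8 D.primeFactors (fun p hp => ((hcl' p hp).2.1))
    rwa [Nat.prod_primeFactors_of_squarefree hsq] at h5
  have hU8 := isq hM8 U fun r hr => (h2 r (hU hr)).2
  refine Pool.Agent.K1H97.BM.no_odd_scale hdd0 (hD0 (σ j))
    (Pool.Agent.K1H97.FU.sq_two ?_) (hodd j)
  rw [Nat.mul_mod, Nat.mul_mod q D, hq8, hD8, hU8]

lemma good_of {k : ℕ} {x : Fin k → ℤ × ℤ} {q : ℕ}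
    (hD0 : ∀ i, 4 * (x i).1 ^ 3 + 27 * (x i).2 ^ 2 ≠ 0)
    {e : Fin k → ℤ} (he : ∀ i, e i ^ 3 + (x i).1 * e i + (x i).2 = 0)
    (h : Pool.Agent.K1H97.ST.GP x q) : GoodPrime x q := by
  obtain ⟨hq, hq8, M, hM, hM8, hcop, h⟩ := h
  have hM1 : 1 < M := by
    have := Nat.le_of_dvd hM hM8
    omega
  have hM4 : 4 ∣ M := Dvd.dvd.trans (by norm_num) hM8
  have hCP := Pool.Agent.K1H97.NA.inst M q hM4 hM.ne' ⟨hq, by omega⟩ hcop
  have hc0 : ∀ X : ℕ, count M q (fun _ => True) X = ((Finset.Icc 1 X).filter fun D =>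
      Squarefree D ∧
        Pool.Agent.K1H97.NA.Cl (Pool.Agent.K1H97.NA.PM M q) D.primeFactors).card := by
    intro X
    unfold count
    congr 1
    ext D
    simp only [Finset.mem_filter, and_true, cls_iff hM1]
  have hcc : ∀ X : ℕ, count M q
      (fun D => D ∈ {D : ℕ | Pool.Agent.K1H97.NA.Ev q 0 D.primeFactors}) X =
      ((Finset.Icc 1 X).filter fun D =>
      (Squarefree D ∧ Pool.Agent.K1H97.NA.Cl (Pool.Agent.K1H97.NA.PM M q) D.primeFactors) ∧
        Pool.Agent.K1H97.NA.Ev q 0 D.primeFactors).card := by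
    intro X
    unfold count
    congr 1
    ext D
    simp only [Finset.mem_filter, cls_iff hM1, Set.mem_setOf_eq]
  have hα : Pool.Agent.K1H97.NA.ac 0 = α := by
    unfold Pool.Agent.K1H97.NA.ac α Pool.Agent.Y703.CQ.c2
    rw [Finset.prod_range_zero, mul_one]
  refine ⟨hq, M, hM, hM8, hcop, {D | Pool.Agent.K1H97.NA.Ev q 0 D.primeFactors}, ?_, ?_,
    fun D hD hcl => tower_of hD0 he hq hq8 hM hM8 hcop h hcl hD⟩
  · obtain ⟨a, X₀, ha, hX⟩ := Pool.Agent.K1H97.NA.size_D hCP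
    refine ⟨a, ha, ?_⟩
    filter_upwards [Filter.eventually_ge_atTop X₀] with X hX0
    rw [hc0 X]
    exact hX X hX0
  · rw [← hα]
    refine (Pool.Agent.K1H97.NA.law_D hCP 0).congr fun X => ?_
    rw [hcc X, hc0 X]

lemma sub_GQ {k : ℕ} (Q : ℕ) {x : Fin k → ℤ × ℤ}
    (hD0 : ∀ i, 4 * (x i).1 ^ 3 + 27 * (x i).2 ^ 2 ≠ 0)
    {e : Fin k → ℤ} (he : ∀ i, e i ^ 3 + (x i).1 * e i + (x i).2 = 0) :
    Pool.Agent.K1H97.ST.UQ Q x ⊆ GQ Q x := by
  intro q hq
  unfold Pool.Agent.K1H97.ST.UQ at hq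
  unfold GQ
  rw [Finset.mem_filter] at hq ⊢
  exact ⟨hq.1, good_of hD0 he hq.2⟩

/-- **Theorem.** For every `k ≥ 1` there is a constant `C` such that for every `ε > 0` there is
`κ > 0` such that for all large `H` and all `Q ≥ (log H) ^ C` the following holds for all but at most
`ε * (#Fam H) ^ k` of the `k`-tuples of elliptic curves over `ℚ` with full rational 2-torsion and
height at most `H`: at least `κ * Q / log Q` primes `q ≤ Q` (a positive proportion of the primes up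
to `Q`) are good for the tuple (`GoodPrime`): for some `M` prime to `q` the proportion `α = 0.4194...`
of the squarefree `D` with all prime factors `≡ 1` modulo `M` and different from `q`, ordered by size,
has the property `Tower`: there is an infinite set `R` of primes such that (1) and (2) hold for all
the fields generated by square roots of products of elements of `R` and for all the closed subsets of
the products of the twists of the curves by `q D r_1 … r_s`, `r_j ∈ R`. The local condition in (2) is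
satisfied if `A = 3` and `B = 0` modulo `4`. -/
theorem result : (0.4194 < α ∧ α < 0.4195) ∧
    (∀ c : ℤ × ℤ, c.1 % 4 = 3 → c.2 % 4 = 0 → NoOddOrder c) ∧
    ∀ k : ℕ, 0 < k → ∃ C : ℕ, ∀ ε : ℝ, 0 < ε → ∃ κ : ℝ, 0 < κ ∧ ∃ H₀ : ℕ,
    ∀ H : ℕ, H₀ ≤ H → ∀ Q : ℕ, (Real.log H) ^ C ≤ Q →
    (((Fintype.piFinset (fun _ : Fin k => Fam H)).filter
      (fun x => ¬ κ * Q / Real.log Q ≤ ((GQ Q x).card : ℝ))).card : ℝ) ≤
        ε * ((Fam H).card : ℝ) ^ k := by
  refine ⟨?_, fun c h1 h2 P m hm h => Pool.Agent.K1H97.BM.no_odd h1 h2 P m hm h, fun k hk =>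
    ⟨Pool.Agent.Y676.CE k, fun ε hε => ?_⟩⟩
  · have e : α = Pool.Agent.Y703.CQ.c2 := rfl
    rw [e]
    exact ⟨Pool.Agent.Y948.CQ.t_C2.2.2.2.1, Pool.Agent.Y948.CQ.t_C2.2.2.2.2⟩
  obtain ⟨κ, hκ, H₀, h⟩ := Pool.Agent.K1H97.ST.main
    (Pool.Agent.Y46.KEY.key_of Pool.Agent.Y660.TS.rnk Pool.Agent.Y676.Tsm.tsm)
    Pool.Agent.Y660.TS.mom k hk ε hε
  refine ⟨κ, hκ, H₀, fun H hH Q hQ => ?_⟩
  rw [Fam_eq]
  refine le_trans ?_ (h H hH Q hQ)
  refine Nat.cast_le.2 (Finset.card_le_card fun x hx => ?_)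
  rw [Finset.mem_filter] at hx ⊢
  have hx1 := Fintype.mem_piFinset.1 hx.1
  choose hD0 e he using fun i => mem_fam (hx1 i)
  refine ⟨hx.1, fun h' => hx.2 (h'.trans ?_)⟩
  exact Nat.cast_le.2 (Finset.card_le_card (sub_GQ Q hD0 he))

end Pool.Agent.Results.MP_ab3ecb_nt.TwistsOfNaturalDensity
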